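import Mathlib
import Pool.Agent.Lib.helper1.Polya

set_option autoImplicit false

open Polynomial

namespace Pool.Agent.Results.MP_57f692_ag.FinGen

open Pool.Agent.Lib.helper1

/-- Finite sums of `a * h ^ 2` with `a` a nonnegative rational. -/
noncomputable def Sig : AddSubmonoid ℚ[X] :=
  AddSubmonoid.closure {p | ∃ (a : ℚ) (h : ℚ[X]), 0 ≤ a ∧ p = C a * h ^ 2}

/-- The preordering generated by `g 0, ..., g (s - 1)`. -/
def T {s : ℕ} (g : Fin s → ℚ[X]) : Set ℚ[X] :=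
  {f | ∃ σ : Finset (Fin s) → ℚ[X], (∀ e, σ e ∈ Sig) ∧ f = ∑ e, σ e * ∏ i ∈ e, g i}

/-- Polynomials nonnegative on `K`. -/
def Pos (K : Set ℝ) : Set ℚ[X] := {f | ∀ t ∈ K, 0 ≤ aeval t f}

lemma gen_mem {a : ℚ} (ha : 0 ≤ a) (h : ℚ[X]) : C a * h ^ 2 ∈ Sig :=
  AddSubmonoid.subset_closure ⟨a, h, ha, rfl⟩

lemma sig_mul {p q : ℚ[X]} (hp : p ∈ Sig) (hq : q ∈ Sig) : p * q ∈ Sig := by
  induction hp using AddSubmonoid.closure_induction with
  | zero => simp
  | add x y _ _ hx hy => rw [add_mul]; exact add_mem hx hy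
  | mem x hx =>
    obtain ⟨a, h, ha, rfl⟩ := hx
    induction hq using AddSubmonoid.closure_induction with
    | zero => simp
    | add x y _ _ hx hy => rw [mul_add]; exact add_mem hx hy
    | mem y hy =>
      obtain ⟨b, k, hb, rfl⟩ := hy
      rw [show C a * h ^ 2 * (C b * k ^ 2) = C (a * b) * (h * k) ^ 2 by rw [C_mul]; ring]
      exact gen_mem (mul_nonneg ha hb) _

lemma sig_nn {p : ℚ[X]} (hp : p ∈ Sig) (t : ℝ) : 0 ≤ aeval t p := by
  induction hp using AddSubmonoid.closure_induction with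
  | zero => simp
  | add x y _ _ hx hy => rw [map_add]; exact add_nonneg hx hy
  | mem x hx =>
    obtain ⟨a, h, ha, rfl⟩ := hx
    have : (0 : ℝ) ≤ a := by exact_mod_cast ha
    simp only [map_mul, aeval_C, eq_ratCast, map_pow]
    positivity

noncomputable def TA {s : ℕ} (g : Fin s → ℚ[X]) : AddSubmonoid ℚ[X] where
  carrier := T g
  add_mem' := by
    rintro _ _ ⟨σ, hσ, rfl⟩ ⟨τ, hτ, rfl⟩
    exact ⟨σ + τ, fun e => add_mem (hσ e) (hτ e), by simp [add_mul, Finset.sum_add_distrib]⟩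
  zero_mem' := ⟨0, fun _ => zero_mem _, by simp⟩

lemma single_mem {s : ℕ} (g : Fin s → ℚ[X]) {p : ℚ[X]} (hp : p ∈ Sig) (e : Finset (Fin s)) :
    p * ∏ i ∈ e, g i ∈ TA g :=
  ⟨fun e' => if e' = e then p else 0, fun e' => by dsimp only; split_ifs; exacts [hp, zero_mem _],
    by simp⟩

noncomputable def TS {s : ℕ} (g : Fin s → ℚ[X]) : Subsemiring ℚ[X] where
  carrier := T g
  add_mem' := fun h h' => (TA g).add_mem h h'
  zero_mem' := (TA g).zero_mem
  one_mem' := show 1 ∈ TA g by simpa using single_mem g (gen_mem zero_le_one 1) ∅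
  mul_mem' := by
    rintro _ _ ⟨σ, hσ, rfl⟩ ⟨τ, hτ, rfl⟩
    rw [Finset.sum_mul_sum]
    refine (TA g).sum_mem fun e _ => (TA g).sum_mem fun e' _ => ?_
    have h1 := Finset.prod_inter_mul_prod_sdiff e e' g
    have h2 := Finset.prod_inter_mul_prod_sdiff e' e g
    have h3 : ∏ i ∈ e \ e' ∪ e' \ e, g i = (∏ i ∈ e \ e', g i) * ∏ i ∈ e' \ e, g i :=
      Finset.prod_union disjoint_sdiff_sdiff
    have := single_mem g (sig_mul (sig_mul (hσ e) (hτ e'))
      (gen_mem zero_le_one (∏ i ∈ e ∩ e', g i))) (e \ e' ∪ e' \ e)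
    rw [Finset.inter_comm] at h2
    rw [← h1, ← h2]
    rw [h3, C_1] at this
    refine (congrArg (· ∈ TA g) ?_).mp this
    ring

lemma hC {s : ℕ} (g : Fin s → ℚ[X]) (c : ℚ) (hc : 0 ≤ c) : C c ∈ TS g := show _ ∈ TA g by
  simpa using single_mem g (gen_mem hc 1) ∅

lemma hsq {s : ℕ} (g : Fin s → ℚ[X]) (p : ℚ[X]) : p ^ 2 ∈ TS g := show _ ∈ TA g by
  simpa using single_mem g (gen_mem zero_le_one p) ∅

lemma hg {s : ℕ} (g : Fin s → ℚ[X]) (i : Fin s) : g i ∈ TS g := show _ ∈ TA g by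
  simpa using single_mem g (gen_mem zero_le_one 1) {i}

lemma sub_pos_of {s : ℕ} (g : Fin s → ℚ[X]) (K : Set ℝ) (h : ∀ i, g i ∈ Pos K) : T g ⊆ Pos K := by
  rintro _ ⟨σ, hσ, rfl⟩ t ht
  rw [map_sum]
  refine Finset.sum_nonneg fun e _ => ?_
  rw [map_mul, map_prod]
  exact mul_nonneg (sig_nn (hσ e) t) (Finset.prod_nonneg fun i _ => h i t ht)

lemma cancel {s : ℕ} (g : Fin s → ℚ[X]) {c : ℚ} (hc : 0 < c) {p q : ℚ[X]} (h : q ∈ TS g)
    (e : q = C c * p) : p ∈ TS g := by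
  have := mul_mem (hC g c⁻¹ (by positivity)) h
  rwa [e, ← mul_assoc, ← C_mul, inv_mul_cancel₀ hc.ne', C_1, one_mul] at this

lemma irr (n : ℕ) (hn : 0 < n) (p : ℕ) (hp : p.Prime) : Irreducible (X ^ n - (p : ℚ[X])) := by
  have hm : (X ^ n - C (p : ℤ)).Monic := monic_X_pow_sub_C _ hn.ne'
  have hp' : Prime (p : ℤ) := Nat.prime_iff_prime_int.1 hp
  have : Irreducible (X ^ n - C (p : ℤ)) := by
    refine irreducible_of_eisenstein_criterion (P := Ideal.span {(p : ℤ)})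
      ((Ideal.span_singleton_prime hp'.ne_zero).2 hp') ?_ ?_ ?_ ?_ hm.isPrimitive
    · rw [hm.leadingCoeff, Ideal.mem_span_singleton]
      exact hp'.not_dvd_one
    · intro k hk
      rw [degree_X_pow_sub_C hn, Nat.cast_lt] at hk
      rw [Ideal.mem_span_singleton, coeff_sub, coeff_X_pow, if_neg hk.ne, coeff_C]
      split_ifs <;> simp
    · rw [degree_X_pow_sub_C hn]; exact_mod_cast hn
    · rw [Ideal.span_singleton_pow, Ideal.mem_span_singleton, coeff_sub, coeff_X_pow,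
        if_neg hn.ne, coeff_C_zero, zero_sub, dvd_neg]
      intro h
      have h1 := Int.le_of_dvd (by exact_mod_cast hp.pos) h
      have h2 : (2 : ℤ) ≤ p := by exact_mod_cast hp.two_le
      nlinarith
  simpa using (IsPrimitive.Int.irreducible_iff_irreducible_map_cast hm.isPrimitive).1 this

lemma irr' (n : ℕ) (hn : 0 < n) (p : ℕ) (hp : p.Prime) : Irreducible ((p : ℚ[X]) - X ^ n) := by
  rw [← neg_sub]
  exact (Associated.neg_right (Associated.refl _)).irreducible (irr n hn p hp)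

lemma root (n : ℕ) (hn : n ≠ 0) : ((2 : ℝ) ^ (1 / n : ℝ)) ^ n = 2 := by
  rw [one_div]; exact Real.rpow_inv_natCast_pow (by norm_num) hn

lemma K1 : Pos (Set.Icc 0 (2 ^ (1 / 3 : ℝ))) = T ![X, 2 - X ^ 3] := by
  obtain ⟨b, hb⟩ : ∃ b : ℝ, b = 2 ^ (1 / 3 : ℝ) := ⟨_, rfl⟩
  have b3 : b ^ 3 = 2 := by rw [hb]; exact_mod_cast root 3 (by norm_num)
  have b0 : 0 < b := by rw [hb]; positivity
  rw [← hb]
  have g0 : X ∈ TS ![X, 2 - X ^ 3] := hg _ 0
  have g1 : 2 - X ^ 3 ∈ TS ![X, 2 - X ^ 3] := hg _ 1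
  refine Set.Subset.antisymm (fun f hf => Polya.main 0 b b0 (TS _) (hC _) (hsq _)
    (fun c hc => ?_) (fun c hc => ?_) ?_ f hf) (sub_pos_of _ _ fun i t ht => ?_)
  · have : c < 0 := by exact_mod_cast hc
    simpa [← sub_eq_add_neg] using add_mem g0 (hC _ (-c) (by linarith))
  · have c0 : 0 < c := by exact_mod_cast b0.trans hc
    have c3 : 2 < c ^ 3 := by
      have := pow_lt_pow_left₀ hc b0.le (n := 3) (by norm_num)
      rw [b3] at this
      exact_mod_cast this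
    refine cancel _ (c := 3 * c ^ 2) (by positivity) (add_mem (add_mem g1
      (hC _ (c ^ 3 - 2) (by linarith))) (mul_mem (hsq _ (X - C c))
        (add_mem g0 (hC _ (2 * c) (by positivity))))) ?_
    simp only [map_sub, map_mul, map_pow, map_ofNat]
    ring
  · rintro r (rfl | rfl)
    · exact ⟨X, g0, irreducible_X, by simp, fun x hx => by simpa using hx.1⟩
    · refine ⟨_, g1, by exact_mod_cast irr' 3 (by norm_num) 2 Nat.prime_two, ?_, fun x hx => ?_⟩
      · simp [map_ofNat, b3]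
      · have := pow_lt_pow_left₀ hx.2 hx.1.le (n := 3) (by norm_num)
        simp only [map_sub, map_ofNat, map_pow, aeval_X]
        linarith
  · have := pow_le_pow_left₀ ht.1 ht.2 3
    fin_cases i
    · simpa using ht.1
    · simp [map_ofNat]; linarith

lemma lin {s : ℕ} (g : Fin s → ℚ[X]) {c : ℚ} (c0 : 0 < c) (h : C (c ^ 2) - X ^ 2 ∈ TS g) :
    C c - X ∈ TS g ∧ X + C c ∈ TS g := by
  constructor
  · refine cancel _ (c := 2 * c) (by positivity) (add_mem h (hsq _ (C c - X))) ?_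
    simp only [map_mul, map_pow, map_ofNat]
    ring
  · refine cancel _ (c := 2 * c) (by positivity) (add_mem h (hsq _ (C c + X))) ?_
    simp only [map_mul, map_pow, map_ofNat]
    ring

lemma K2 : Pos (Set.Icc √2 √3) = T ![X, X ^ 2 - 2, 3 - X ^ 2] := by
  have a2 : √2 ^ 2 = 2 := Real.sq_sqrt (by norm_num)
  have b2 : √3 ^ 2 = 3 := Real.sq_sqrt (by norm_num)
  have a0 : 0 < √2 := by positivity
  have b0 : 0 < √3 := by positivity
  have g0 : X ∈ TS ![X, X ^ 2 - 2, 3 - X ^ 2] := hg _ 0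
  have g1 : X ^ 2 - 2 ∈ TS ![X, X ^ 2 - 2, 3 - X ^ 2] := hg _ 1
  have g2 : 3 - X ^ 2 ∈ TS ![X, X ^ 2 - 2, 3 - X ^ 2] := hg _ 2
  have up : ∀ c : ℚ, 0 < c → 3 ≤ c ^ 2 → C c - X ∈ TS ![X, X ^ 2 - 2, 3 - X ^ 2] :=
    fun c c0 c2 => (lin _ c0 (by
      have := add_mem g2 (hC _ (c ^ 2 - 3) (by linarith))
      rwa [show 3 - X ^ 2 + C (c ^ 2 - 3) = C (c ^ 2) - X ^ 2 by
        simp only [map_sub, map_ofNat]; ring] at this)).1
  refine Set.Subset.antisymm (fun f hf => Polya.main _ _ (Real.sqrt_lt_sqrt (by norm_num)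
    (by norm_num)) (TS _) (hC _) (hsq _)
    (fun c hc => ?_) (fun c hc => ?_) ?_ f hf) (sub_pos_of _ _ fun i t ht => ?_)
  · rcases le_or_gt c 0 with c0 | c0
    · simpa [← sub_eq_add_neg] using add_mem g0 (hC _ (-c) (by linarith))
    have c2 : c ^ 2 < 2 := by
      have := pow_lt_pow_left₀ hc (by exact_mod_cast c0.le) (n := 2) (by norm_num)
      rw [a2] at this
      exact_mod_cast this
    have c1 : c < 2 := by nlinarith
    refine Polya.divide _ (hC _) _ (C (1 / 4) * (X + C c)) ((2 - c ^ 2) / 4) (by linarith)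
      (mul_mem (hC _ _ (by norm_num)) (add_mem g0 (hC _ c c0.le))) ?_ ?_ c (by simpa using g0)
    · refine cancel _ (c := 4) (by norm_num) (add_mem (up 2 (by norm_num) (by norm_num))
        (hC _ (2 - c) (by linarith))) ?_
      rw [mul_sub, ← mul_assoc, ← C_mul]
      simp only [map_sub, map_ofNat]
      norm_num
      ring
    · refine cancel _ (c := 4) (by norm_num) g1 ?_
      rw [mul_sub, mul_left_comm (X - C c), ← mul_assoc, ← C_mul, ← C_mul,
        show 4 * ((2 - c ^ 2) / 4) = 2 - c ^ 2 by ring]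
      simp only [map_sub, map_ofNat, map_pow]
      norm_num
      ring
  · have c0 : 0 < c := by exact_mod_cast b0.trans hc
    have := pow_lt_pow_left₀ hc b0.le (n := 2) (by norm_num)
    rw [b2] at this
    exact up c c0 (by exact_mod_cast this.le)
  · rintro r (rfl | rfl)
    · refine ⟨_, g1, by exact_mod_cast irr 2 (by norm_num) 2 Nat.prime_two, ?_, fun x hx => ?_⟩
      · simp [map_ofNat]
      · have := pow_lt_pow_left₀ hx.1 a0.le (n := 2) (by norm_num)
        simp only [map_sub, map_ofNat, map_pow, aeval_X]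
        linarith
    · refine ⟨_, g2, by exact_mod_cast irr' 2 (by norm_num) 3 Nat.prime_three, ?_, fun x hx => ?_⟩
      · simp [map_ofNat]
      · have := pow_lt_pow_left₀ hx.2 (a0.trans hx.1).le (n := 2) (by norm_num)
        simp only [map_sub, map_ofNat, map_pow, aeval_X]
        linarith
  · have t0 := a0.le.trans ht.1
    have h1 := pow_le_pow_left₀ a0.le ht.1 2
    have h2 := pow_le_pow_left₀ t0 ht.2 2
    fin_cases i
    · simpa using t0
    · simp [map_ofNat]; linarith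
    · simp [map_ofNat]; linarith

lemma K3 : Pos (Set.Icc (-2 ^ (1 / 4 : ℝ)) (2 ^ (1 / 4 : ℝ))) = T ![2 - X ^ 4] := by
  obtain ⟨b, hb⟩ : ∃ b : ℝ, b = 2 ^ (1 / 4 : ℝ) := ⟨_, rfl⟩
  have b4 : b ^ 4 = 2 := by rw [hb]; exact_mod_cast root 4 (by norm_num)
  have b0 : 0 < b := by rw [hb]; positivity
  rw [← hb]
  have g0 : 2 - X ^ 4 ∈ TS ![2 - X ^ 4] := hg _ 0
  have up : ∀ c : ℚ, b < (c : ℝ) → C c - X ∈ TS ![2 - X ^ 4] ∧ X + C c ∈ TS ![2 - X ^ 4] := by
    intro c hc
    have c0 : 0 < c := by exact_mod_cast b0.trans hc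
    have c4 : 2 < c ^ 4 := by
      have := pow_lt_pow_left₀ hc b0.le (n := 4) (by norm_num)
      rw [b4] at this
      exact_mod_cast this
    refine lin _ c0 (cancel _ (c := 2 * c ^ 2) (by positivity) (add_mem (add_mem g0
      (hC _ (c ^ 4 - 2) (by linarith))) (hsq _ (C (c ^ 2) - X ^ 2))) ?_)
    simp only [map_sub, map_mul, map_pow, map_ofNat]
    ring
  have ev : Even 4 := by decide
  refine Set.Subset.antisymm (fun f hf => Polya.main (-b) b (by linarith) (TS _) (hC _) (hsq _)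
    (fun c hc => ?_) (fun c hc => (up c hc).1) ?_ f hf) (sub_pos_of _ _ fun i t ht => ?_)
  · simpa [← sub_eq_add_neg] using (up (-c) (by push_cast; linarith)).2
  · intro r hr
    refine ⟨_, g0, by exact_mod_cast irr' 4 (by norm_num) 2 Nat.prime_two, ?_, fun x hx => ?_⟩
    · rcases hr with rfl | rfl <;> simp [map_ofNat, b4, ev.neg_pow]
    · have := pow_lt_pow_left₀ (abs_lt.2 hx) (abs_nonneg x) (n := 4) (by norm_num)
      rw [ev.pow_abs] at this
      simp only [map_sub, map_ofNat, map_pow, aeval_X]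
      linarith
  · have := pow_le_pow_left₀ (abs_nonneg t) (abs_le.2 ht) 4
    rw [ev.pow_abs] at this
    fin_cases i
    simp [map_ofNat]; linarith

theorem result : Pos (Set.Icc 0 (2 ^ (1 / 3 : ℝ))) = T ![X, 2 - X ^ 3] ∧
    Pos (Set.Icc √2 √3) = T ![X, X ^ 2 - 2, 3 - X ^ 2] ∧
    Pos (Set.Icc (-2 ^ (1 / 4 : ℝ)) (2 ^ (1 / 4 : ℝ))) = T ![2 - X ^ 4] ∧
    X - 1 ∈ T ![X, X ^ 2 - 2, 3 - X ^ 2] := by
  refine ⟨K1, K2, K3, K2 ▸ fun t ht => ?_⟩
  have : 1 ≤ √2 := Real.one_le_sqrt.2 (by norm_num)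
  simp only [map_sub, aeval_X, map_one]
  linarith [ht.1]

end Pool.Agent.Results.MP_57f692_ag.FinGen
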